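import Pool.Agent.N980.WU.Fin

/-!
Blow-up, for an open and dense set of data, of the Navier-Stokes equations with an additional term `A(curl u, u)`,
where `⟨A(w,v),z⟩` is an explicit alternating trilinear form of arbitrarily small positive order that vanishes on the
fields that are independent of a coordinate; energy and helicity are conserved.
-/

open MeasureTheory Set
open scoped ContDiff

namespace Pool.Agent.Results.MP_6bf1e5_an.AlternatingFormBlowup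

open Pool.Agent.N980.WU

theorem result {ε : ℝ} (hε : 0 < ε) (hε1 : ε ≤ 4 / 5) {R : ℕ} (hR : 10 ^ 16 ≤ (R : ℝ) ^ ε) {G : ℝ} (hG : G ≠ 0) :
    Alt ε (A ε G R) ∧ ∀ ν : ℝ, 0 < ν →
      (∀ v : V → V, SPV v → (∀ x, dv v x = 0) →
        ∃ T > 0, ∃ (u : ℝ → V → V) (p : ℝ → V → ℝ), u 0 = v ∧ Sol ν (A ε G R) T u p) ∧
      (∃ δ > 0, ∀ v : V → V, SPV v → (∀ x, dv v x = 0) → wn v ≤ δ →
        ∀ T > 0, ∃ (u : ℝ → V → V) (p : ℝ → V → ℝ), u 0 = v ∧ Sol ν (A ε G R) T u p) ∧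
      (∀ (T : ℝ) (u : ℝ → V → V) (p : ℝ → V → ℝ), Sol ν (A ε G R) T u p →
        (∀ t ∈ Ico 0 T, energy (u t) + 2 * ν * ∫ s in (0 : ℝ)..t, dissip (u s) = energy (u 0)) ∧
        (∀ t ∈ Ico 0 T, ip (u t) (curl (u t)) + 2 * ν * ∫ s in (0 : ℝ)..t, ip (curl (u s)) (curl (curl (u s)))
          = ip (u 0) (curl (u 0))) ∧
        ∀ (u' : ℝ → V → V) (p' : ℝ → V → ℝ), Sol ν (A ε G R) T u' p' → u 0 = u' 0 → ∀ t ∈ Ico 0 T, u t = u' t) ∧
      ∀ v : V → V, SPV v → (∀ x, dv v x = 0) → ∀ η > 0,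
        ∃ w : V → V, SPV w ∧ (∀ x, dv w x = 0) ∧ energy (w - v) ≤ η ^ 2 ∧ ∃ r > 0,
          ∀ w' : V → V, SPV w' → (∀ x i, |w' x i - w x i| ≤ r) →
            ∀ (u : ℝ → V → V) (p : ℝ → V → ℝ), u 0 = w' → ¬Sol ν (A ε G R) η u p :=
  main hε hε1 hR hG

end Pool.Agent.Results.MP_6bf1e5_an.AlternatingFormBlowup
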