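import Pool.Agent.N980.NU.Prop

/-!
Non-uniqueness for the three-dimensional Navier-Stokes equations with an additional bilinear term
`K(u,u)` of lower order. The term does no work, conserves every Sobolev norm and the helicity, and
only rotates the amplitudes of the frequencies `± (20ⁿ,0,0)`.
See the claim file for the definitions.
-/

open MeasureTheory Set Filter Topology

namespace Pool.Agent.Results.MP_6bf1e5_an.UniquenessLowerOrder

open Pool.Agent.N980.NU

/-- Let `ν > 0` and let `λₙ > 0` with `∑ 1/λₙ < ∞` and `λₙ = o(20ⁿ)`. The operator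
`K(u,v) = ∑ₙ λₙ (2π 20ⁿ)² θ_{20^(n+1)}(u) e₁ × P_{20ⁿ} v` has the properties `KProps`. For every smooth
periodic divergence-free field `v` and every `η > 0` there are a field `w` within `η` of `v` in every
point and times `0 < t₀ < T` such that the equations
`∂ₜu + (u·∇)u = νΔu - ∇p + K(u,u)`, `div u = 0`, `u(0) = w` have a continuum of periodic solutions on
`[0,T)` which are smooth for `0 < t < T`, continuous up to `t = 0`, satisfy the energy equality, are
bounded in the Wiener algebra and differ at the time `t₀`. -/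
theorem result (ν : ℝ) (hν : 0 < ν) (lam : ℕ → ℝ) (hpos : ∀ n, 0 < lam n)
    (hsum : Summable fun n => 1 / lam n) (hgrowth : Tendsto (fun n => lam n / 20 ^ n) atTop (𝓝 0)) :
    KProps lam ∧
    ∀ v : V → V, SPV v → (∀ x, dv v x = 0) → ∀ η > 0,
      ∃ w : V → V, (∀ x i, |w x i - v x i| ≤ η) ∧ ∃ T > 0, ∃ N : ℕ, ∃ t₀ ∈ Ioo 0 T, ∃ b > 0,
        ∀ y ∈ Icc (-b) b, ∃ u p, IsSol ν lam T u p ∧
          (∃ B : (Fin 3 → ℤ) → ℝ, Summable B ∧ ∀ t ∈ Ico 0 T, ∀ k i, ‖fco (u t) k i‖ ≤ B k) ∧
          u 0 = w ∧ theta N (u t₀) = y :=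
  ⟨kprops hpos hgrowth, fun _ hv hd _ hη => nonuniq hν hpos hsum hgrowth hv hd hη⟩

end Pool.Agent.Results.MP_6bf1e5_an.UniquenessLowerOrder
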